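import Mathlib
import Pool.Agent.R337.AC.Distort

/-!
Asymptotic cones do not determine the sequence distortion spectrum: there are proper geodesic
metric spaces `X`, `Y` all of whose asymptotic cones (all scales, ultrafilters, basepoint
sequences) are isometric, while their sequence distortion spectra differ for both index sets.
-/

open Filter Topology Cardinal

namespace Pool.Agent.Results.MP_efec2f_gt.IsometricCones

open Pool.Agent.R337.AC

theorem mk_padic_le : #ℚ_[2] ≤ 𝔠 := by
  have h : Function.Surjective (fun s : PadicSeq 2 => Padic.mk s) := by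
    intro x
    refine Quotient.inductionOn' x fun s => ?_
    exact ⟨s, rfl⟩
  calc #ℚ_[2] ≤ #(PadicSeq 2) := mk_le_of_surjective h
    _ ≤ #(ℕ → ℚ) := mk_le_of_injective (f := fun s : PadicSeq 2 => (s : ℕ → ℚ)) (by
        intro s t hst
        exact Subtype.ext hst)
    _ = 𝔠 := by simp

theorem result : ∃ (X Y : Type) (_ : MetricSpace X) (_ : MetricSpace Y),
    ProperSpace X ∧ ProperSpace Y ∧ IsGeodesic X ∧ IsGeodesic Y ∧
    (∀ (r : Scales) (ω : Ultrafilter ℕ), (ω : Filter ℕ) ≤ cofinite →
      ∀ (x : ℕ → X) (y : ℕ → Y), Nonempty (Cone ω x r ≃ᵢ Cone ω y r)) ∧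
    (∀ I : Set ℤ, (I = {n | 1 ≤ n} ∨ I = Set.univ) → spectrum I X ≠ spectrum I Y) := by
  refine ⟨HorPlane, UTree ℚ_[2], inferInstance, inferInstance, inferInstance, inferInstance,
    HorPlane.isGeodesic, UTree.isGeodesic, fun r ω hω x y => ?_, fun I hI heq => ?_⟩
  · rw [Nat.cofinite_eq_atTop] at hω
    exact cone_isometry mk_real.le mk_padic_le HorPlane.isModel UTree.isModel ω hω r x y
  · have h1 : Quotient.mk growthSetoid ⟨logRate, isRate_logRate⟩ ∈ spectrum I HorPlane :=
      ⟨⟨logRate, isRate_logRate⟩, rfl, _, distorted_horPlane I⟩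
    rw [heq] at h1
    obtain ⟨g, hg, p, hp⟩ := h1
    have hg' : SameGrowth g.1 logRate := Quotient.exact hg
    refine not_realizable UTree.four_point UTree.isGeodesic I (fun n hn => ?_) g.1 hg' p hp
    rcases hI with rfl | rfl
    · exact hn
    · exact Set.mem_univ n

end Pool.Agent.Results.MP_efec2f_gt.IsometricCones
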